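import Mathlib

set_option autoImplicit false

namespace Pool.Agent.Results.MP_1a6900_co.OrderOfMagnitude

open scoped InnerProductSpace
open Finset Filter Asymptotics

/-- Euclidean space of dimension `n`. -/
abbrev E (n : ℕ) := EuclideanSpace ℝ (Fin n)

/-- The vertices of the unit cube. -/
def cube (n : ℕ) : Set (E n) := {x | ∀ i, x i = 0 ∨ x i = 1}

/-- The width of a set: the least distance between two parallel supporting hyperplanes, that is
the infimum over unit vectors `u` of `sup ⟨u, x⟩ - inf ⟨u, x⟩`, `x` in the set. -/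
noncomputable def width {n : ℕ} (C : Set (E n)) : ℝ :=
  ⨅ u : Metric.sphere (0 : E n) 1,
    (sSup ((fun x => ⟪(u : E n), x⟫_ℝ) '' C) - sInf ((fun x => ⟪(u : E n), x⟫_ℝ) '' C))

/-- A packing of the vertices of the cube by sets of width at least `t`: a family of pairwise
disjoint nonempty sets of vertices, each of whose convex hulls has width at least `t`. -/
def IsPacking (n : ℕ) (t : ℝ) (P : Finset (Finset (E n))) : Prop :=
  (∀ A ∈ P, A.Nonempty ∧ (A : Set (E n)) ⊆ cube n ∧ t ≤ width (convexHull ℝ (A : Set (E n)))) ∧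
  (∀ A ∈ P, ∀ B ∈ P, A ≠ B → Disjoint A B)

/-- The largest number of members of such a packing. -/
noncomputable def N (n : ℕ) (t : ℝ) : ℕ :=
  sSup {m : ℕ | ∃ P : Finset (Finset (E n)), IsPacking n t P ∧ P.card = m}

/-! ### The sign character of `ZMod 2` -/

/-- The sign character. -/
def chi (x : ZMod 2) : ℝ := if x = 0 then 1 else -1

lemma zero_or_one (x : ZMod 2) : x = 0 ∨ x = 1 := by
  revert x
  decide

lemma chi_zero : chi 0 = 1 := by simp [chi]

lemma chi_one : chi 1 = -1 := by simp [chi]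

lemma chi_add (x y : ZMod 2) : chi (x + y) = chi x * chi y := by
  have h11 : (1 : ZMod 2) + 1 = 0 := by decide
  rcases zero_or_one x with rfl | rfl <;> rcases zero_or_one y with rfl | rfl <;>
    simp [chi_zero, chi_one, h11]

lemma chi_sq (x : ZMod 2) : chi x * chi x = 1 := by
  rcases zero_or_one x with rfl | rfl <;> simp [chi_zero, chi_one]

lemma sum_shift {k : ℕ} (w : Fin k → ZMod 2) (e : Fin k → ZMod 2) :
    ∑ s : Fin k → ZMod 2, chi (w ⬝ᵥ s) = ∑ s : Fin k → ZMod 2, chi (w ⬝ᵥ (s + e)) := by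
  have := Equiv.sum_comp (Equiv.addRight e) (fun s => chi (w ⬝ᵥ s))
  simp only [Equiv.coe_addRight] at this
  exact this.symm

lemma sum_chi {k : ℕ} (w : Fin k → ZMod 2) (hw : w ≠ 0) :
    ∑ s : Fin k → ZMod 2, chi (w ⬝ᵥ s) = 0 := by
  obtain ⟨j, hj⟩ := Function.ne_iff.mp hw
  have hj1 : w j = 1 := (zero_or_one (w j)).resolve_left hj
  have h1 : ∑ s : Fin k → ZMod 2, chi (w ⬝ᵥ s) =
      ∑ s : Fin k → ZMod 2, chi (w ⬝ᵥ (s + Pi.single j 1)) := sum_shift w _
  have h2 : ∀ s : Fin k → ZMod 2, chi (w ⬝ᵥ (s + Pi.single j 1)) = - chi (w ⬝ᵥ s) := by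
    intro s
    rw [dotProduct_add, dotProduct_single, hj1, chi_add, mul_one, chi_one, mul_neg_one]
  rw [Finset.sum_congr rfl (fun s _ => h2 s), Finset.sum_neg_distrib] at h1
  linarith

/-- The vertex of the cube with a given coordinate vector. -/
noncomputable def pt {n : ℕ} (x : Fin n → ZMod 2) : E n :=
  WithLp.toLp 2 (fun i => (1 - chi (x i)) / 2)

lemma pt_apply {n : ℕ} (x : Fin n → ZMod 2) (i : Fin n) : pt x i = (1 - chi (x i)) / 2 := rfl

lemma pt_mem {n : ℕ} (x : Fin n → ZMod 2) : pt x ∈ cube n := by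
  intro i
  rw [pt_apply]
  unfold chi
  split_ifs <;> norm_num

lemma chi_inj {x y : ZMod 2} (h : chi x = chi y) : x = y := by
  rcases zero_or_one x with rfl | rfl <;> rcases zero_or_one y with rfl | rfl <;>
    first
    | rfl
    | (rw [chi_zero, chi_one] at h; norm_num at h)

lemma pt_inj {n : ℕ} : Function.Injective (pt (n := n)) := by
  intro x y h
  funext i
  have h1 := congrArg (fun z : E n => z i) h
  simp only [pt_apply] at h1
  apply chi_inj
  linarith

lemma pt_surj {n : ℕ} (z : E n) (hz : z ∈ cube n) : ∃ x, pt x = z := by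
  classical
  refine ⟨fun i => if z i = 0 then 0 else 1, ?_⟩
  ext i
  rw [pt_apply]
  rcases hz i with h | h <;> simp [h, chi]

/-! ### The variance argument -/

lemma range_bound {n k : ℕ} (v : Fin n → (Fin k → ZMod 2)) (hv0 : ∀ i, v i ≠ 0)
    (hv : Function.Injective v) (y : Fin n → ZMod 2) (u : E n) (hu : ‖u‖ = 1) (α β : ℝ)
    (h : ∀ s : Fin k → ZMod 2, α ≤ ⟪u, pt (fun i => v i ⬝ᵥ s + y i)⟫_ℝ ∧
      ⟪u, pt (fun i => v i ⬝ᵥ s + y i)⟫_ℝ ≤ β) : 1 ≤ β - α := by
  set g : (Fin k → ZMod 2) → ℝ := fun s => ∑ i, u i * chi (v i ⬝ᵥ s + y i) with hg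
  set T : ℝ := ∑ i, u i with hT
  have hin : ∀ s, ⟪u, pt (fun i => v i ⬝ᵥ s + y i)⟫_ℝ = (T - g s) / 2 := by
    intro s
    rw [PiLp.inner_apply, hT, hg, ← Finset.sum_sub_distrib, Finset.sum_div]
    apply Finset.sum_congr rfl
    intro i _
    rw [pt_apply]
    simp only [RCLike.inner_apply, conj_trivial]
    ring
  have hsum : ∑ s, g s = 0 := by
    rw [hg, Finset.sum_comm]
    apply Finset.sum_eq_zero
    intro i _
    have : ∀ s : Fin k → ZMod 2, u i * chi (v i ⬝ᵥ s + y i) =
        (u i * chi (y i)) * chi (v i ⬝ᵥ s) := by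
      intro s
      rw [chi_add]
      ring
    rw [Finset.sum_congr rfl (fun s _ => this s), ← Finset.mul_sum, sum_chi _ (hv0 i), mul_zero]
  have hnorm : ∑ i, u i * u i = 1 := by
    have := EuclideanSpace.norm_sq_eq u
    rw [hu] at this
    simp only [Real.norm_eq_abs, sq_abs] at this
    have h2 : ∑ i, u i * u i = ∑ i, u i ^ 2 := Finset.sum_congr rfl (fun i _ => by ring)
    rw [h2, ← this]
    norm_num
  have hsq : ∑ s, g s * g s = 2 ^ k := by
    have e1 : ∀ s, g s * g s = ∑ i, ∑ j, (u i * chi (y i)) * (u j * chi (y j)) *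
        (chi (v i ⬝ᵥ s) * chi (v j ⬝ᵥ s)) := by
      intro s
      rw [hg, Finset.sum_mul_sum]
      apply Finset.sum_congr rfl
      intro i _
      apply Finset.sum_congr rfl
      intro j _
      rw [chi_add, chi_add]
      ring
    rw [Finset.sum_congr rfl (fun s _ => e1 s), Finset.sum_comm]
    have e2 : ∀ i : Fin n, ∑ s : Fin k → ZMod 2, ∑ j, (u i * chi (y i)) * (u j * chi (y j)) *
        (chi (v i ⬝ᵥ s) * chi (v j ⬝ᵥ s)) = u i * u i * 2 ^ k := by
      intro i
      rw [Finset.sum_comm, Finset.sum_eq_single i]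
      · rw [← Finset.mul_sum]
        have : ∑ s : Fin k → ZMod 2, chi (v i ⬝ᵥ s) * chi (v i ⬝ᵥ s) = 2 ^ k := by
          rw [Finset.sum_congr rfl (fun s _ => chi_sq _)]
          simp
        rw [this]
        have := chi_sq (y i)
        calc u i * chi (y i) * (u i * chi (y i)) * 2 ^ k =
            u i * u i * (chi (y i) * chi (y i)) * 2 ^ k := by ring
          _ = _ := by rw [this, mul_one]
      · intro j _ hj
        rw [← Finset.mul_sum]
        have : ∑ s : Fin k → ZMod 2, chi (v i ⬝ᵥ s) * chi (v j ⬝ᵥ s) = 0 := by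
          have h3 : ∀ s : Fin k → ZMod 2, chi (v i ⬝ᵥ s) * chi (v j ⬝ᵥ s) =
              chi ((v i + v j) ⬝ᵥ s) := by
            intro s
            rw [add_dotProduct, chi_add]
          rw [Finset.sum_congr rfl (fun s _ => h3 s)]
          apply sum_chi
          intro h0
          apply hj
          apply hv
          have h4 : ∀ a b : ZMod 2, a + b = 0 → b = a := by decide
          funext l
          exact h4 _ _ (congrFun h0 l)
        rw [this, mul_zero]
      · simp
    rw [Finset.sum_congr rfl (fun i _ => e2 i), ← Finset.sum_mul, hnorm, one_mul]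
  -- bounds for g
  have hb : ∀ s, T - 2 * β ≤ g s ∧ g s ≤ T - 2 * α := by
    intro s
    have := h s
    rw [hin] at this
    constructor <;> linarith [this.1, this.2]
  set m := T - 2 * β with hm
  set M := T - 2 * α with hM
  have hpos : 0 ≤ ∑ s, (M - g s) * (g s - m) :=
    Finset.sum_nonneg (fun s _ => mul_nonneg (by linarith [(hb s).2]) (by linarith [(hb s).1]))
  have hexp : ∑ s, (M - g s) * (g s - m) =
      (M + m) * ∑ s, g s - ∑ s, g s * g s - 2 ^ k * (M * m) := by
    rw [Finset.mul_sum, ← Finset.sum_sub_distrib]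
    have hc : ∑ s : Fin k → ZMod 2, (M * m) = 2 ^ k * (M * m) := by simp
    rw [← hc, ← Finset.sum_sub_distrib]
    apply Finset.sum_congr rfl
    intro s _
    ring
  rw [hexp, hsum, hsq, mul_zero] at hpos
  have hk : (0 : ℝ) < 2 ^ k := by positivity
  have h5 : 0 ≤ (2 : ℝ) ^ k * (-1 - M * m) := by linarith
  have h6 : 0 ≤ -1 - M * m := by
    by_contra hneg
    push Not at hneg
    have := mul_neg_of_pos_of_neg hk hneg
    linarith
  have h7 : m ≤ M := (hb 0).1.trans (hb 0).2
  have h8 : 2 ≤ M - m := by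
    by_contra hlt
    push Not at hlt
    nlinarith [sq_nonneg (M + m)]
  rw [hM, hm] at h8
  linarith

/-- Inner products are bounded on the convex hull of a finite set. -/
lemma bounded_image {n : ℕ} (A : Finset (E n)) (u : E n) :
    Bornology.IsBounded ((fun x => ⟪u, x⟫_ℝ) '' (convexHull ℝ (A : Set (E n)))) := by
  have h1 : Bornology.IsBounded (convexHull ℝ (A : Set (E n))) :=
    isBounded_convexHull.mpr A.finite_toSet.isBounded
  have h2 : LipschitzWith ‖u‖₊ (fun x : E n => ⟪u, x⟫_ℝ) := by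
    apply LipschitzWith.of_dist_le_mul
    intro x y
    rw [Real.dist_eq, ← inner_sub_right, dist_eq_norm]
    exact abs_real_inner_le_norm _ _
  exact h2.isBounded_image h1

lemma le_width {n : ℕ} (hn : 1 ≤ n) (A : Finset (E n)) (t : ℝ)
    (h : ∀ u : E n, ‖u‖ = 1 → ∀ α β : ℝ, (∀ x ∈ A, α ≤ ⟪u, x⟫_ℝ ∧ ⟪u, x⟫_ℝ ≤ β) → t ≤ β - α) :
    t ≤ width (convexHull ℝ (A : Set (E n))) := by
  have : Nonempty (Fin n) := ⟨⟨0, hn⟩⟩
  have : Nonempty (Metric.sphere (0 : E n) 1) :=
    (NormedSpace.sphere_nonempty.mpr zero_le_one).to_subtype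
  apply le_ciInf
  intro u
  have hu : ‖(u : E n)‖ = 1 := by
    have := u.2
    rwa [mem_sphere_zero_iff_norm] at this
  have hb := bounded_image A (u : E n)
  apply h u hu
  intro x hx
  have hmem : ⟪(u : E n), x⟫_ℝ ∈ (fun x => ⟪(u : E n), x⟫_ℝ) '' (convexHull ℝ (A : Set (E n))) :=
    ⟨x, subset_convexHull ℝ _ hx, rfl⟩
  exact ⟨csInf_le hb.bddBelow hmem, le_csSup hb.bddAbove hmem⟩

/-- Construction: cosets of a simplex code. -/
lemma lower {n k : ℕ} (hn : 1 ≤ n) (hk : n < 2 ^ k) :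
    ∃ P : Finset (Finset (E n)), IsPacking n 1 P ∧ 2 ^ n ≤ P.card * 2 ^ k := by
  classical
  obtain ⟨v⟩ : Nonempty (Fin n ↪ {w : Fin k → ZMod 2 // w ≠ 0}) := by
    apply Function.Embedding.nonempty_of_card_le
    rw [Fintype.card_fin, Fintype.card_subtype_compl, Fintype.card_pi]
    simp
    omega
  set w : Fin n → (Fin k → ZMod 2) := fun i => (v i).1 with hw
  have hw0 : ∀ i, w i ≠ 0 := fun i => (v i).2
  have hwi : Function.Injective w := fun i j hij => v.injective (Subtype.ext hij)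
  let A : (Fin n → ZMod 2) → Finset (E n) := fun y =>
    Finset.univ.image (fun s : Fin k → ZMod 2 => pt (fun i => w i ⬝ᵥ s + y i))
  have hsub : ∀ y y' z, z ∈ A y → z ∈ A y' → A y ⊆ A y' := by
    intro y y' z hz hz' z2 hz2
    simp only [A, Finset.mem_image, Finset.mem_univ, true_and] at hz hz' hz2 ⊢
    obtain ⟨s, hs⟩ := hz
    obtain ⟨s', hs'⟩ := hz'
    obtain ⟨s2, hs2⟩ := hz2
    refine ⟨s2 - s + s', ?_⟩
    rw [← hs2]
    congr 1
    funext i
    have h1 := congrFun (pt_inj (hs.trans hs'.symm)) i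
    rw [dotProduct_add, dotProduct_sub]
    linear_combination (-1 : ZMod 2) * h1
  refine ⟨Finset.univ.image A, ⟨?_, ?_⟩, ?_⟩
  · intro B hB
    simp only [Finset.mem_image, Finset.mem_univ, true_and] at hB
    obtain ⟨y, rfl⟩ := hB
    refine ⟨⟨pt (fun i => w i ⬝ᵥ 0 + y i), Finset.mem_image_of_mem _ (Finset.mem_univ _)⟩, ?_, ?_⟩
    · intro z hz
      simp only [A, Finset.coe_image, Finset.coe_univ, Set.image_univ, Set.mem_range] at hz
      obtain ⟨s, rfl⟩ := hz
      exact pt_mem _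
    · apply le_width hn
      intro u hu α β h
      apply range_bound w hw0 hwi y u hu α β
      intro s
      exact h _ (Finset.mem_image_of_mem _ (Finset.mem_univ _))
  · intro B hB B' hB' hne
    simp only [Finset.mem_image, Finset.mem_univ, true_and] at hB hB'
    obtain ⟨y, rfl⟩ := hB
    obtain ⟨y', rfl⟩ := hB'
    rw [Finset.disjoint_left]
    intro z hz hz'
    exact hne (Finset.Subset.antisymm (hsub _ _ z hz hz') (hsub _ _ z hz' hz))
  · have h1 : (Finset.univ.image (pt (n := n))).card = 2 ^ n := by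
      rw [Finset.card_image_of_injective _ pt_inj]
      simp
    rw [← h1]
    calc (Finset.univ.image (pt (n := n))).card ≤ ((Finset.univ.image A).biUnion id).card := by
          apply Finset.card_le_card
          intro z hz
          simp only [Finset.mem_image, Finset.mem_univ, true_and] at hz
          obtain ⟨y, rfl⟩ := hz
          simp only [Finset.mem_biUnion, Finset.mem_image, Finset.mem_univ, true_and, id]
          refine ⟨A y, ⟨y, rfl⟩, ?_⟩
          simp only [A, Finset.mem_image, Finset.mem_univ, true_and]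
          exact ⟨0, by simp⟩
      _ ≤ (Finset.univ.image A).card * 2 ^ k := by
          apply Finset.card_biUnion_le_card_mul
          intro B hB
          simp only [Finset.mem_image, Finset.mem_univ, true_and] at hB
          obtain ⟨y, rfl⟩ := hB
          calc (A y).card ≤ (Finset.univ : Finset (Fin k → ZMod 2)).card := Finset.card_image_le
            _ = 2 ^ k := by simp

/-- A set of at most `n` points has width zero. -/
lemma card_of_width {n : ℕ} (A : Finset (E n)) (hA : A.Nonempty)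
    (h : 0 < width (convexHull ℝ (A : Set (E n)))) : n + 1 ≤ A.card := by
  classical
  by_contra hlt
  push Not at hlt
  obtain ⟨a, ha⟩ := hA
  set B : Finset (E n) := (A.erase a).image (fun x => x - a) with hB
  have hBc : B.card < n := by
    have h1 : B.card ≤ (A.erase a).card := Finset.card_image_le
    rw [Finset.card_erase_of_mem ha] at h1
    have : 0 < A.card := Finset.card_pos.mpr ⟨a, ha⟩
    omega
  set S : Submodule ℝ (E n) := Submodule.span ℝ (B : Set (E n)) with hS
  have hfin : Module.finrank ℝ S ≤ B.card := finrank_span_finset_le_card B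
  have hne : Sᗮ ≠ ⊥ := by
    intro h0
    have h1 : S = ⊤ := by
      rwa [Submodule.orthogonal_eq_bot_iff] at h0
    rw [h1, finrank_top, finrank_euclideanSpace_fin] at hfin
    omega
  obtain ⟨w, hw, hw0⟩ := Submodule.exists_mem_ne_zero_of_ne_bot hne
  have hwn : 0 < ‖w‖ := norm_pos_iff.mpr hw0
  set u : E n := (‖w‖⁻¹ : ℝ) • w with hu
  have hu1 : ‖u‖ = 1 := by
    rw [hu, norm_smul, norm_inv, norm_norm, inv_mul_cancel₀ hwn.ne']
  have hortho : ∀ x ∈ A, ⟪u, x⟫_ℝ = ⟪u, a⟫_ℝ := by
    intro x hx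
    by_cases hxa : x = a
    · rw [hxa]
    · have hmem : x - a ∈ S := Submodule.subset_span (by
        rw [hB, Finset.coe_image]
        exact ⟨x, by simp [hx, hxa], rfl⟩)
      have h1 : ⟪x - a, w⟫_ℝ = 0 := (Submodule.mem_orthogonal S w).mp hw _ hmem
      have h2 : ⟪u, x - a⟫_ℝ = 0 := by
        rw [hu, inner_smul_left, real_inner_comm, h1, mul_zero]
      rw [inner_sub_right] at h2
      linarith
  have hconv : ∀ x ∈ convexHull ℝ (A : Set (E n)), ⟪u, x⟫_ℝ = ⟪u, a⟫_ℝ := by
    have hcs : Convex ℝ {x : E n | ⟪u, x⟫_ℝ = ⟪u, a⟫_ℝ} := by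
      apply convex_hyperplane
      exact ⟨fun x y => inner_add_right _ _ _, fun c x => inner_smul_right _ _ _⟩
    exact fun x hx => (convexHull_min (fun z hz => hortho z hz) hcs) hx
  have himg : (fun x => ⟪u, x⟫_ℝ) '' (convexHull ℝ (A : Set (E n))) = {⟪u, a⟫_ℝ} := by
    ext r
    simp only [Set.mem_image, Set.mem_singleton_iff]
    constructor
    · rintro ⟨x, hx, rfl⟩
      exact hconv x hx
    · rintro rfl
      exact ⟨a, subset_convexHull ℝ _ ha, rfl⟩
  have hle : width (convexHull ℝ (A : Set (E n))) ≤ 0 := by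
    have hbdd : BddBelow (Set.range (fun u : Metric.sphere (0 : E n) 1 =>
        (sSup ((fun x => ⟪(u : E n), x⟫_ℝ) '' (convexHull ℝ (A : Set (E n)))) -
          sInf ((fun x => ⟪(u : E n), x⟫_ℝ) '' (convexHull ℝ (A : Set (E n))))))) := by
      refine ⟨0, ?_⟩
      rintro _ ⟨u', rfl⟩
      have hb := bounded_image A (u' : E n)
      have := Real.sInf_le_sSup _ hb.bddBelow hb.bddAbove
      simp only
      linarith
    have h1 := ciInf_le hbdd ⟨u, by rw [mem_sphere_zero_iff_norm]; exact hu1⟩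
    simp only [himg, csSup_singleton, csInf_singleton, sub_self] at h1
    exact h1
  linarith

lemma upper {n : ℕ} (t : ℝ) (ht : 0 < t) (P : Finset (Finset (E n))) (hP : IsPacking n t P) :
    (n + 1) * P.card ≤ 2 ^ n := by
  classical
  have h1 : (Finset.univ.image (pt (n := n))).card ≤ 2 ^ n := by
    rw [Finset.card_image_of_injective _ pt_inj]
    simp
  have h2 : (P.biUnion id).card = ∑ A ∈ P, A.card := by
    apply Finset.card_biUnion
    intro A hA B hB hAB
    exact hP.2 A hA B hB hAB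
  have h3 : P.card * (n + 1) ≤ ∑ A ∈ P, A.card := by
    rw [← smul_eq_mul]
    apply Finset.card_nsmul_le_sum
    intro A hA
    exact card_of_width A (hP.1 A hA).1 (ht.trans_le (hP.1 A hA).2.2)
  have h4 : (P.biUnion id).card ≤ (Finset.univ.image (pt (n := n))).card := by
    apply Finset.card_le_card
    intro z hz
    simp only [Finset.mem_biUnion, id] at hz
    obtain ⟨A, hA, hzA⟩ := hz
    obtain ⟨x, hx⟩ := pt_surj z ((hP.1 A hA).2.1 hzA)
    rw [← hx]
    exact Finset.mem_image_of_mem _ (Finset.mem_univ _)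
  rw [mul_comm]
  omega

lemma isGreatest_N (n : ℕ) (t : ℝ) (ht : 0 < t) :
    IsGreatest {m : ℕ | ∃ P : Finset (Finset (E n)), IsPacking n t P ∧ P.card = m} (N n t) := by
  have hbdd : BddAbove {m : ℕ | ∃ P : Finset (Finset (E n)), IsPacking n t P ∧ P.card = m} := by
    refine ⟨2 ^ n, ?_⟩
    rintro m ⟨P, hP, rfl⟩
    have := upper t ht P hP
    nlinarith
  have hne : {m : ℕ | ∃ P : Finset (Finset (E n)), IsPacking n t P ∧ P.card = m}.Nonempty :=
    ⟨0, ∅, ⟨by simp, by simp⟩, rfl⟩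
  exact ⟨Nat.sSup_mem hne hbdd, fun m hm => le_csSup hbdd hm⟩

lemma IsPacking.mono {n : ℕ} {t t' : ℝ} (h : t ≤ t') {P : Finset (Finset (E n))}
    (hP : IsPacking n t' P) : IsPacking n t P :=
  ⟨fun A hA => ⟨(hP.1 A hA).1, (hP.1 A hA).2.1, h.trans (hP.1 A hA).2.2⟩, hP.2⟩

lemma N_upper (n : ℕ) (t : ℝ) (ht : 0 < t) : (n + 1) * N n t ≤ 2 ^ n := by
  obtain ⟨P, hP, hc⟩ := (isGreatest_N n t ht).1
  rw [← hc]
  exact upper t ht P hP

lemma N_lower (n k : ℕ) (hn : 1 ≤ n) (hk : n < 2 ^ k) (t : ℝ) (ht : 0 < t) (ht1 : t ≤ 1) :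
    2 ^ n ≤ N n t * 2 ^ k := by
  obtain ⟨P, hP, hc⟩ := lower hn hk
  have := (isGreatest_N n t ht).2 ⟨P, hP.mono ht1, rfl⟩
  exact hc.trans (Nat.mul_le_mul_right _ this)

lemma N_lower' (n : ℕ) (hn : 1 ≤ n) (t : ℝ) (ht : 0 < t) (ht1 : t ≤ 1) :
    2 ^ n ≤ 2 * n * N n t := by
  have h1 := N_lower n (Nat.log 2 n + 1) hn (Nat.lt_pow_succ_log_self (by norm_num) n) t ht ht1
  have h2 : 2 ^ (Nat.log 2 n + 1) ≤ 2 * n := by
    rw [pow_succ, mul_comm]
    exact Nat.mul_le_mul_left 2 (Nat.pow_log_le_self 2 (by omega))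
  calc 2 ^ n ≤ N n t * 2 ^ (Nat.log 2 n + 1) := h1
    _ ≤ N n t * (2 * n) := Nat.mul_le_mul_left _ h2
    _ = 2 * n * N n t := by ring

/-- **Main result.** For every `n ≥ 1` and every `t` in `(0, 1]`, the largest number `N n t` of
members of a packing of the cube vertices by sets of width at least `t` (a maximum that is
attained) satisfies `2 ^ n / (2 n) ≤ N n t ≤ 2 ^ n / (n + 1)`; hence `N n t = Θ (2 ^ n / n)` for
every fixed `t` in `(0, 1]`, and `N n t = 2 ^ n / (n + 1)` exactly when `n + 1` is a power of two,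
for every `t` in `(0, 1]`. -/
theorem result :
    (∀ (n : ℕ) (t : ℝ), 1 ≤ n → 0 < t → t ≤ 1 →
      IsGreatest {m : ℕ | ∃ P : Finset (Finset (E n)), IsPacking n t P ∧ P.card = m} (N n t) ∧
      (2 : ℝ) ^ n / (2 * n) ≤ N n t ∧ (N n t : ℝ) ≤ 2 ^ n / (n + 1)) ∧
    (∀ t : ℝ, 0 < t → t ≤ 1 →
      (fun n : ℕ => (N n t : ℝ)) =Θ[atTop] (fun n : ℕ => (2 : ℝ) ^ n / n)) ∧
    (∀ (k : ℕ) (t : ℝ), 1 ≤ k → 0 < t → t ≤ 1 →
      (N (2 ^ k - 1) t : ℝ) = 2 ^ (2 ^ k - 1) / 2 ^ k) := by
  have main : ∀ (n : ℕ) (t : ℝ), 1 ≤ n → 0 < t → t ≤ 1 →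
      (2 : ℝ) ^ n / (2 * n) ≤ N n t ∧ (N n t : ℝ) ≤ 2 ^ n / (n + 1) := by
    intro n t hn ht ht1
    have hnpos : (0 : ℝ) < n := by exact_mod_cast hn
    constructor
    · rw [div_le_iff₀ (by positivity)]
      have h1 := N_lower' n hn t ht ht1
      have h2 : (2 : ℝ) ^ n ≤ 2 * n * N n t := by exact_mod_cast h1
      linarith
    · rw [le_div_iff₀ (by positivity)]
      have h1 := N_upper n t ht
      have h2 : ((n : ℝ) + 1) * N n t ≤ 2 ^ n := by exact_mod_cast h1
      linarith
  refine ⟨fun n t hn ht ht1 => ⟨isGreatest_N n t ht, main n t hn ht ht1⟩, ?_, ?_⟩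
  · intro t ht ht1
    constructor
    · apply IsBigO.of_bound 1
      filter_upwards [eventually_ge_atTop 1] with n hn
      have hnpos : (0 : ℝ) < n := by exact_mod_cast hn
      rw [Real.norm_of_nonneg (by positivity), Real.norm_of_nonneg (by positivity), one_mul]
      calc (N n t : ℝ) ≤ 2 ^ n / (n + 1) := (main n t hn ht ht1).2
        _ ≤ 2 ^ n / n := by
          apply div_le_div_of_nonneg_left (by positivity) hnpos
          linarith
    · apply IsBigO.of_bound 2
      filter_upwards [eventually_ge_atTop 1] with n hn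
      have hnpos : (0 : ℝ) < n := by exact_mod_cast hn
      rw [Real.norm_of_nonneg (by positivity), Real.norm_of_nonneg (by positivity)]
      have h1 := (main n t hn ht ht1).1
      have h2 : (2 : ℝ) ^ n / n = 2 * (2 ^ n / (2 * n)) := by field_simp
      rw [h2]
      linarith
  · intro k t hk ht ht1
    have h2k : 2 ≤ 2 ^ k := by
      calc 2 = 2 ^ 1 := rfl
        _ ≤ 2 ^ k := Nat.pow_le_pow_right (by norm_num) hk
    have h1 := N_lower (2 ^ k - 1) k (by omega) (by omega) t ht ht1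
    have h2 := N_upper (2 ^ k - 1) t ht
    have h3 : 2 ^ k - 1 + 1 = 2 ^ k := by omega
    rw [h3, mul_comm] at h2
    have h4 : N (2 ^ k - 1) t * 2 ^ k = 2 ^ (2 ^ k - 1) := le_antisymm h2 h1
    rw [eq_div_iff (by positivity)]
    exact_mod_cast h4

end Pool.Agent.Results.MP_1a6900_co.OrderOfMagnitude
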